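import Mathlib

set_option autoImplicit false

namespace Pool.Agent.Results.MP_89350a_an.Main

open Set Topology Filter Metric TopologicalSpace

/-- The closed linear subspaces. -/
def SB (K E : Type) [RCLike K] [NormedAddCommGroup E] [NormedSpace K E] : Type :=
  {X : Submodule K E // IsClosed (X : Set E)}

/-- The subspaces meeting a set. -/
def Ep {K E : Type} [RCLike K] [NormedAddCommGroup E] [NormedSpace K E] (U : Set E) :
    Set (SB K E) := {X | ((X.1 : Set E) ∩ U).Nonempty}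

/-- Admissible Polish topologies. -/
def Admissible {K E : Type} [RCLike K] [NormedAddCommGroup E] [NormedSpace K E]
    (τ : TopologicalSpace (SB K E)) : Prop :=
  @PolishSpace _ τ ∧ (∀ U : Set E, IsOpen U → IsOpen[τ] (Ep U)) ∧
    ∃ S : Set (Set (SB K E)), τ = generateFrom S ∧ ∀ s ∈ S, ∃ U V : ℕ → Set E,
      (∀ n, IsOpen (U n) ∧ IsOpen (V n)) ∧ s = ⋃ n, Ep (U n) \ Ep (V n)

/-- An admissible topology with continuous dense independent selections exists. -/
def Good (K E : Type) [RCLike K] [NormedAddCommGroup E] [NormedSpace K E] : Prop :=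
  ∃ τ : TopologicalSpace (SB K E), Admissible τ ∧ ∃ h : ℕ → SB K E → E, (∀ i, Continuous (h i)) ∧
    (∀ X : SB K E, (X.1 : Set E) = closure (range fun i => h i X)) ∧
    ∀ X : SB K E, ¬ FiniteDimensional K X.1 → LinearIndependent K fun i => h i X

theorem gdelta {X : Type} [TopologicalSpace X] [PolishSpace X] {s : Set X} (hs : IsGδ s) :
    PolishSpace s := by
  obtain ⟨U, hU, rfl⟩ := isGδ_iff_eq_iInter_nat.mp hs
  have := fun n => (hU n).polishSpace
  let f : (⋂ n, U n : Set X) → ∀ n, U n := fun x n => ⟨x.1, Set.mem_iInter.mp x.2 n⟩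
  have hc : Continuous f := continuous_pi fun n => continuous_subtype_val.subtype_mk _
  have cv : ∀ n, Continuous fun y : ∀ n, U n => (y n).1 := fun n =>
    continuous_subtype_val.comp (continuous_apply n)
  have he : IsEmbedding f := IsEmbedding.of_comp hc (cv 0) IsEmbedding.subtypeVal
  have hr : Set.range f = ⋂ n, {y | (y n).1 = (y 0).1} := by
    ext y
    simp only [Set.mem_range, Set.mem_iInter, Set.mem_ofPred_eq]
    constructor
    · rintro ⟨x, rfl⟩ n; rfl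
    · intro h
      exact ⟨⟨(y 0).1, Set.mem_iInter.mpr fun n => h n ▸ (y n).2⟩,
        funext fun n => Subtype.ext (h n).symm⟩
  exact IsClosedEmbedding.polishSpace ⟨he, hr ▸ isClosed_iInter fun n => isClosed_eq (cv n) (cv 0)⟩

theorem glue {Z Y : Type} [TopologicalSpace Z] [SecondCountableTopology Z] [Nonempty Z]
    (hz : ∀ (z : Z), ∀ s ∈ 𝓝 z, ∃ W, IsClopen W ∧ z ∈ W ∧ W ⊆ s) (P : Z → Y → Prop)
    (h : ∀ z, ∃ y, ∀ᶠ w in 𝓝 z, P w y) : ∃ f, IsLocallyConstant f ∧ ∀ w, P w (f w) := by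
  classical
  choose y hy using h
  choose W w1 w2 w3 using fun z => hz z _ (hy z)
  obtain ⟨s, s1, s2⟩ := TopologicalSpace.countable_cover_nhds fun z => (w1 z).2.mem_nhds (w2 z)
  obtain ⟨e, he⟩ := (s1.insert (Classical.arbitrary Z)).exists_eq_range (insert_nonempty _ _)
  have a : ∀ w, ∃ n, w ∈ W (e n) := fun w => by
    obtain ⟨z, z1, z2⟩ := mem_iUnion₂.1 (s2.ge (mem_univ w))
    obtain ⟨n, rfl⟩ := he.le (mem_insert_of_mem _ z1)
    exact ⟨n, z2⟩
  refine ⟨fun w => y (e (Nat.find (a w))), IsLocallyConstant.comp (f := fun w => Nat.find (a w))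
    ((IsLocallyConstant.iff_eventually_eq _).2 fun z => ?_) (y ∘ e),
    fun w => w3 _ (Nat.find_spec (a w))⟩
  filter_upwards [(w1 _).2.mem_nhds (Nat.find_spec (a z)), (eventually_all_finite (finite_Iio
    (Nat.find (a z)))).2 fun m hm => (w1 _).1.isOpen_compl.mem_nhds (Nat.find_min (a z) hm)]
    with w b c
  exact (Nat.find_eq_iff _).2 ⟨b, c⟩

section
variable {K E : Type} [RCLike K] [NormedAddCommGroup E] [NormedSpace K E]

theorem nest [CompleteSpace E] (A : ℕ → Set E) (h1 : ∀ k, (A k).Nonempty)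
    (h2 : ∀ k, closure (A (k + 1)) ⊆ A k) {b : ℕ → ℝ} (hb : Tendsto b atTop (𝓝 0))
    (h3 : ∀ k, ∀ x ∈ A (k + 1), ∀ y ∈ A (k + 1), dist x y ≤ b k) : ∃ x, ∀ k, x ∈ A k := by
  choose u hu using h1
  have m : Antitone A := antitone_nat_of_succ_le fun k => subset_closure.trans (h2 k)
  obtain ⟨x, hx⟩ := cauchySeq_tendsto_of_complete (cauchySeq_of_le_tendsto_0'
    (s := fun k => u (k + 1)) b (fun n k h => h3 n _ (hu _) _ (m (Nat.succ_le_succ h) (hu _))) hb)
  exact ⟨x, fun k => h2 k (mem_closure_of_tendsto hx (eventually_atTop.2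
    ⟨k, fun n h => m (Nat.succ_le_succ h) (hu _)⟩))⟩

def Dim (n : ℕ) (X : SB K E) : Prop := ∃ u : Fin n → E, (∀ i, u i ∈ X.1) ∧ LinearIndependent K u

theorem ind {X : SB K E} {n : ℕ} (h : Dim n X) {U : ℕ → Set E} (o : ∀ i, IsOpen (U i))
    (e : ∀ i, X ∈ Ep (U i)) : ∀ k ≤ n, ∃ y : ℕ → E, (∀ i, y i ∈ X.1 ∧ y i ∈ U i) ∧
      LinearIndependent K fun i : Fin k => y i := fun k hk => by
  induction k with
  | zero =>
    choose y hy using e
    exact ⟨y, hy, linearIndependent_empty_type⟩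
  | succ k ih =>
    obtain ⟨y, y1, y2⟩ := ih (by omega)
    obtain ⟨u, u1, u2⟩ := h
    obtain ⟨w, w1, w2⟩ : ∃ w, (w ∈ X.1 ∧ w ∈ U k) ∧
        w ∉ Submodule.span K (range fun i : Fin k => y i) := by
      by_contra! c
      have := FiniteDimensional.span_of_finite K (finite_range fun i : Fin k => y i)
      have a : ∀ j, u j ∈ Submodule.span K (range fun i : Fin k => y i) := fun j => by
        have t : Tendsto (fun t : K => y k + t • u j) (𝓝[≠] 0) (𝓝 (y k)) :=
          ((by fun_prop : Continuous fun t : K => y k + t • u j).tendsto' 0 _ (by simp)).mono_left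
            nhdsWithin_le_nhds
        obtain ⟨t, t1, t2⟩ := ((t.eventually ((o k).mem_nhds (y1 k).2)).and
          self_mem_nhdsWithin).exists
        exact (Submodule.smul_mem_iff _ t2).1 ((Submodule.add_mem_iff_right _ (c _ (y1 k))).1
          (c _ ⟨add_mem (y1 k).1 (Submodule.smul_mem _ _ (u1 j)), t1⟩))
      have b := (LinearIndependent.of_comp (v := fun j => (⟨u j, a j⟩ : Submodule.span K _))
        (Submodule.subtype _) u2).fintype_card_le_finrank.trans (finrank_range_le_card _)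
      simp only [Fintype.card_fin] at b
      omega
    have a : Fin.init (fun i : Fin (k + 1) => Function.update y k w i) = fun i : Fin k => y i :=
      funext fun i => Function.update_of_ne i.2.ne _ _
    refine ⟨Function.update y k w, fun i => ?_, linearIndependent_finSucc'.2 ?_⟩
    · rcases eq_or_ne i k with rfl | c
      · rwa [Function.update_self]
      · rw [Function.update_of_ne c]; exact y1 i
    · rw [a]
      exact ⟨y2, by rwa [Fin.val_last, Function.update_self]⟩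

theorem rob [CompleteSpace K] {n : ℕ} {u : Fin n → E} (h : LinearIndependent K u) :
    ∀ᶠ r in 𝓝[>] (0 : ℝ), ∀ y : Fin n → E, (∀ i, y i ∈ closedBall (u i) r) →
      LinearIndependent K y := by
  filter_upwards [nhdsWithin_le_nhds (eventually_closedBall_subset h.eventually),
    self_mem_nhdsWithin] with r a b y c using a ((dist_pi_le_iff (le_of_lt b)).2 c)

theorem main [CompleteSpace E] [TopologicalSpace (SB K E)] [PolishSpace (SB K E)]
    (hz : ∀ (z : SB K E), ∀ s ∈ 𝓝 z, ∃ W, IsClopen W ∧ z ∈ W ∧ W ⊆ s) {B : ℕ → Set E}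
    (b1 : ∀ n, IsOpen (B n)) (b2 : ∀ x, ∀ U ∈ 𝓝 x, ∃ n, x ∈ B n ∧ B n ⊆ U)
    (h1 : ∀ U : Set E, IsOpen U → IsOpen (Ep (K := K) U)) (h2 : ∀ n, IsClosed (Ep (K := K) (B n))) :
    ∃ h : ℕ → SB K E → E, (∀ i, Continuous (h i)) ∧
      (∀ X : SB K E, (X.1 : Set E) = closure (range fun i => h i X)) ∧
      ∀ X : SB K E, ¬ FiniteDimensional K X.1 → LinearIndependent K fun i => h i X := by
  classical
  have : Nonempty (SB K E) := ⟨⟨⊤, isClosed_univ⟩⟩
  have d : ∀ n, IsOpen {X : SB K E | Dim n X} := fun n => isOpen_iff_mem_nhds.2 fun X ⟨u, a, b⟩ => by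
    obtain ⟨r, r1, r2⟩ := ((rob b).and self_mem_nhdsWithin).exists
    filter_upwards [eventually_all.2 fun i => (h1 _ isOpen_ball).mem_nhds
      (⟨u i, a i, mem_ball_self r2⟩ : X ∈ Ep (ball (u i) r))] with Y c
    choose y y1 y2 using c
    exact ⟨y, y1, r1 y fun i => ball_subset_closedBall (y2 i)⟩
  choose C c1 c2 using fun n => isGδ_iff_eq_iInter_nat.1 (d n).isClosed_compl.isGδ
  let I : ℕ → SB K E → (ℕ → E) × ℝ → Prop := fun s z t =>
    0 < t.2 ∧ t.2 ≤ (1 / 2) ^ s ∧ ∀ i < s, z ∈ Ep (ball (t.1 i) t.2)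
  let R : ℕ → SB K E → (ℕ → E) × ℝ → (ℕ → E) × ℝ → Prop := fun s z t t' =>
    (∀ i < s, closedBall (t'.1 i) t'.2 ⊆ ball (t.1 i) t.2) ∧
    (z ∈ Ep (B s) → closedBall (t'.1 s) t'.2 ⊆ B s) ∧ (z ∉ C s.unpair.1 s.unpair.2 →
      ∀ y : Fin s.unpair.1 → E, (∀ i, y i ∈ closedBall (t'.1 i.1) t'.2) → LinearIndependent K y)
  have step : ∀ s (f : {f : SB K E → _ // IsLocallyConstant f ∧ ∀ z, I s z (f z)}),
      ∃ g : {g : SB K E → _ // IsLocallyConstant g ∧ ∀ z, I (s + 1) z (g z)},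
        ∀ z, R s z (f.1 z) (g.1 z) := fun s ⟨f, f1, f2⟩ => by
    obtain ⟨g, g1, g2⟩ := glue hz (fun z t => I (s + 1) z t ∧ R s z (f z) t) fun z => by
      let U : ℕ → Set E := fun i => if i < s then ball ((f z).1 i) (f z).2 else
        if z ∈ Ep (B i) then B i else univ
      have o : ∀ i, IsOpen (U i) := fun i => by
        simp only [U]
        split_ifs
        exacts [isOpen_ball, b1 i, isOpen_univ]
      have e : ∀ i, z ∈ Ep (U i) := fun i => by
        simp only [U]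
        split_ifs with a b
        exacts [(f2 z).2.2 i a, b, ⟨0, zero_mem _, trivial⟩]
      obtain ⟨y, y1, y2⟩ : ∃ y : ℕ → E, (∀ i, y i ∈ z.1 ∧ y i ∈ U i) ∧ ∀ᶠ r in 𝓝[>] (0 : ℝ),
          z ∉ C s.unpair.1 s.unpair.2 → ∀ v : Fin s.unpair.1 → E,
            (∀ i, v i ∈ closedBall (y i.1) r) → LinearIndependent K v := by
        by_cases a : z ∈ C s.unpair.1 s.unpair.2
        · choose y hy using e
          exact ⟨y, hy, Eventually.of_forall fun _ b => absurd a b⟩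
        · obtain ⟨y, y1, y2⟩ := ind (n := s.unpair.1) (by_contra fun c =>
            a (mem_iInter.1 ((c2 _).le c) _)) o e _ le_rfl
          exact ⟨y, y1, (rob y2).mono fun _ b _ => b⟩
      obtain ⟨r, ⟨⟨r1, r2⟩, r3⟩, r0⟩ := (((y2.and (nhdsWithin_le_nhds ((eventually_all_finite
        (finite_Iic s)).2 fun i _ => eventually_closedBall_subset ((o i).mem_nhds (y1 i).2)))).and
        (nhdsWithin_le_nhds (eventually_le_nhds (show (0 : ℝ) < (1 / 2) ^ (s + 1) by
          positivity)))).and self_mem_nhdsWithin).exists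
      have p1 : ∀ᶠ w in 𝓝 z, w ∈ Ep (B s) → z ∈ Ep (B s) := by
        by_cases a : z ∈ Ep (B s)
        · exact Eventually.of_forall fun _ _ => a
        · exact mem_of_superset ((h2 s).isOpen_compl.mem_nhds a) fun _ b c => absurd c b
      have p2 : ∀ᶠ w in 𝓝 z, z ∈ C s.unpair.1 s.unpair.2 → w ∈ C s.unpair.1 s.unpair.2 := by
        by_cases a : z ∈ C s.unpair.1 s.unpair.2
        · exact mem_of_superset ((c1 _ _).mem_nhds a) fun _ b _ => b
        · exact Eventually.of_forall fun _ b => absurd b a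
      refine ⟨(y, r), ?_⟩
      filter_upwards [f1.eventually_eq z, p1, p2, (eventually_all_finite (finite_Iio (s + 1))).2
        fun i _ => (h1 _ isOpen_ball).mem_nhds
          (⟨y i, (y1 i).1, mem_ball_self r0⟩ : z ∈ Ep (ball (y i) r))] with w q0 q1 q2 q3
      rw [q0]
      exact ⟨⟨r0, r3, q3⟩, fun i hi => (r2 i (mem_Iic.2 hi.le)).trans_eq (if_pos hi), fun a =>
        (r2 s self_mem_Iic).trans_eq ((if_neg (lt_irrefl s)).trans (if_pos (q1 a))),
        fun a => r1 fun b => a (q2 b)⟩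
    exact ⟨⟨g, g1, fun z => (g2 z).1⟩, fun z => (g2 z).2⟩
  choose G hG using step
  obtain ⟨S, s1, s2, s3⟩ : ∃ S : ℕ → SB K E → (ℕ → E) × ℝ, (∀ s, IsLocallyConstant (S s)) ∧
      (∀ s z, I s z (S s z)) ∧ ∀ s z, R s z (S s z) (S (s + 1) z) := by
    let S : ∀ s, {f : SB K E → _ // IsLocallyConstant f ∧ ∀ z, I s z (f z)} := fun s =>
      s.rec ⟨fun _ => (0, 1), IsLocallyConstant.const _, fun _ =>
        ⟨one_pos, by simp, fun _ a => absurd a (Nat.not_lt_zero _)⟩⟩ G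
    exact ⟨fun s => (S s).1, fun s => (S s).2.1, fun s => (S s).2.2, fun s => hG s (S s)⟩
  have t0 := tendsto_pow_atTop_nhds_zero_of_lt_one (r := (1 / 2 : ℝ)) (by norm_num) (by norm_num)
  have t1 : Tendsto (fun k : ℕ => 2 * (1 / 2 : ℝ) ^ k) atTop (𝓝 0) := by
    simpa using t0.const_mul 2
  have a : ∀ i z, ∃ x, ∀ s > i, x ∈ closedBall ((S s z).1 i) (S s z).2 := fun i z => by
    obtain ⟨x, hx⟩ := nest (fun k => closedBall ((S (k + i + 1) z).1 i) (S (k + i + 1) z).2)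
      (fun k => nonempty_closedBall.2 (s2 _ z).1.le) (fun k => closure_closedBall.le.trans (by
        rw [add_right_comm k 1 i]
        exact ((s3 _ z).1 i (by omega)).trans ball_subset_closedBall)) t1 fun k x hx y hy => by
        linarith [dist_triangle_right x y ((S (k + 1 + i + 1) z).1 i), mem_closedBall.1 hx,
          mem_closedBall.1 hy, (s2 (k + 1 + i + 1) z).2.1, pow_le_pow_of_le_one
          (show (0 : ℝ) ≤ 1 / 2 by norm_num) (by norm_num) (show k ≤ k + 1 + i + 1 by omega)]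
    refine ⟨x, fun s hs => ?_⟩
    obtain ⟨k, rfl⟩ : ∃ k, s = k + i + 1 := ⟨s - i - 1, by omega⟩
    exact hx k
  choose h hh using a
  refine ⟨h, fun i => TendstoUniformly.continuous (p := atTop) (F := fun s z => (S s z).1 i)
    (Metric.tendstoUniformly_iff.2 fun ε hε => ?_) (Frequently.of_forall fun s =>
      ((s1 s).comp fun t => t.1 i).continuous), fun X => Subset.antisymm (fun x hx =>
    mem_closure_iff_nhds.2 fun U hU => ?_) (closure_minimal ?_ X.2), fun X hX =>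
    linearIndependent_iff_finset_linearIndependent.2 fun s => ?_⟩
  · filter_upwards [eventually_gt_atTop i, t0.eventually (gt_mem_nhds hε)] with s a b z
    exact ((hh i z s a).trans (s2 s z).2.1).trans_lt b
  · obtain ⟨n, n1, n2⟩ := b2 x U hU
    exact ⟨_, n2 ((s3 n X).2.1 ⟨x, hx, n1⟩ (hh n X _ n.lt_succ_self)), n, rfl⟩
  · rintro _ ⟨i, rfl⟩
    refine X.2.closure_subset (Metric.mem_closure_iff.2 fun ε hε => ?_)
    obtain ⟨s, a, b⟩ := ((eventually_gt_atTop i).and (t1.eventually (gt_mem_nhds hε))).exists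
    obtain ⟨y, y1, y2⟩ := (s2 s X).2.2 i a
    exact ⟨y, y1, by linarith [dist_triangle_right (h i X) y ((S s X).1 i), mem_ball.1 y2,
      mem_closedBall.1 (hh i X s a), (s2 s X).2.1]⟩
  · obtain ⟨n, hn⟩ := s.exists_nat_subset_range
    obtain ⟨v, hv⟩ := Module.le_rank_iff.1 ((Cardinal.natCast_lt_aleph0 (n := n)).le.trans
      (not_lt.1 fun c => hX (Module.rank_lt_aleph0_iff.1 c)))
    obtain ⟨j, hj⟩ := not_forall.1 fun c => (c2 n).ge (mem_iInter.2 c)
      (⟨_, fun i => (v i).2, hv.map' X.1.subtype (Submodule.ker_subtype _)⟩ : Dim n X)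
    have := (s3 (n.pair j) X).2.2
    rw [Nat.unpair_pair] at this
    exact (this hj (fun i => h i X) fun i => hh i X _
      (i.2.trans_le ((n.left_le_pair j).trans (Nat.le_succ _)))).comp
      (fun i : s => ⟨i, Finset.mem_range.1 (hn i.2)⟩) fun _ _ e => Subtype.ext (congrArg Fin.val e)

theorem pol : PolishSpace (ℕ → Bool) :=
  have : IsCompletelyMetrizableSpace (ℕ → Bool) := inferInstance
  have : SecondCountableTopology (ℕ → Bool) := inferInstance
  ⟨⟩

theorem adm [CompleteSpace E] {B : ℕ → Set E}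
    (b1 : ∀ n, IsOpen (B n)) (b2 : ∀ x, ∀ U ∈ 𝓝 x, ∃ n, x ∈ B n ∧ B n ⊆ U) :
    ∃ τ : TopologicalSpace (SB K E), Admissible τ ∧ (∀ n, IsClosed (Ep (K := K) (B n))) ∧
      ∀ (z : SB K E), ∀ s ∈ 𝓝 z, ∃ W, IsClopen W ∧ z ∈ W ∧ W ⊆ s := by
  classical
  let a : SB K E → ℕ → Bool := fun X n => decide (X ∈ Ep (B n))
  have a1 : ∀ X n, a X n = true ↔ X ∈ Ep (B n) := fun X n => decide_eq_true_iff
  letI : TopologicalSpace (SB K E) := .induced a inferInstance
  have a2 : ∀ X Y, a X = a Y → X.1 ≤ Y.1 := fun X Y e x hx =>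
    Y.2.closure_subset (mem_closure_iff_nhds.2 fun U hU => by
      obtain ⟨n, n1, n2⟩ := b2 x U hU
      obtain ⟨y, y1, y2⟩ := (a1 Y n).1 (e ▸ (a1 X n).2 ⟨x, hx, n1⟩)
      exact ⟨y, n2 y2, y1⟩)
  have a3 : IsEmbedding a := ⟨⟨rfl⟩, fun X Y e => Subtype.ext ((a2 X Y e).antisymm (a2 Y X e.symm))⟩
  have a4 : ∀ n, IsClopen (Ep (K := K) (B n)) := fun n => by
    convert (isClopen_discrete {true}).preimage ((continuous_apply n).comp a3.continuous) using 1
    exact Set.ext fun X => (a1 X n).symm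
  let P : ℕ × ℕ × ℕ → Prop := fun p => (∀ x ∈ B p.1, ∀ y ∈ B p.2.1, x + y ∈ B p.2.2) ∨
    ∃ t : K, ∀ x ∈ B p.1, t • x ∈ B p.2.2
  let Q : ℕ × ℕ → ℕ → Prop := fun p m => (B m).Nonempty ∧ closure (B m) ⊆ B p.1 ∧
    ∀ x ∈ B m, ∀ y ∈ B m, dist x y ≤ 1 / (p.2 + 1)
  have o : ∀ n b, IsOpen {c : ℕ → Bool | c n = b} := fun n b =>
    (isOpen_discrete {b}).preimage (f := fun c : ℕ → Bool => c n) (continuous_apply n)
  have k : ∀ p : Prop, IsOpen {_c : ℕ → Bool | p} := fun p => isOpen_const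
  have a5 : range a = (⋂ p : ℕ × ℕ × ℕ, {c | ¬ P p ∨ c p.1 = false ∨ c p.2.1 = false ∨
      c p.2.2 = true}) ∩ (⋂ n, {c | 0 ∉ B n ∨ c n = true}) ∩
      ⋂ p : ℕ × ℕ, {c | c p.1 = false} ∪ ⋃ m, {c | Q p m ∧ c m = true} := by
    refine Set.ext fun c => ?_
    simp only [mem_inter_iff, mem_iInter, mem_union, mem_iUnion, mem_setOf_eq, ← Bool.not_eq_true,
      ← imp_iff_not_or]
    refine ⟨?_, fun ⟨⟨h1, h2⟩, h3⟩ => ?_⟩
    · rintro ⟨X, rfl⟩
      simp only [a1]
      refine ⟨⟨fun p h ⟨x, x1, x2⟩ ⟨y, y1, y2⟩ => h.elim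
        (fun h => ⟨_, add_mem x1 y1, h x x2 y y2⟩) fun ⟨t, h⟩ => ⟨_, X.1.smul_mem t x1, h x x2⟩,
        fun n h => ⟨0, zero_mem _, h⟩⟩, fun p ⟨x, x1, x2⟩ => ?_⟩
      obtain ⟨T, t1, t2, t3⟩ := exists_mem_nhds_isClosed_subset ((b1 _).mem_nhds x2)
      obtain ⟨m, m1, m2⟩ := b2 x _ (inter_mem t1 (ball_mem_nhds x
        (half_pos (Nat.one_div_pos_of_nat (n := p.2)))))
      exact ⟨m, ⟨⟨x, m1⟩, (closure_minimal (fun _ e => (m2 e).1) t2).trans t3, fun y y1 z z1 => by
        linarith [dist_triangle_right y z x, mem_ball.1 (m2 y1).2, mem_ball.1 (m2 z1).2]⟩,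
        x, x1, m1⟩
    let X : SB K E := ⟨
      { carrier := {x | ∀ n, x ∈ B n → c n = true}
        add_mem' := fun {x y} hx hy n h => by
          obtain ⟨U, u, V, v, e⟩ := mem_nhds_prod_iff.1
            ((continuous_add.tendsto (x, y)).eventually ((b1 n).mem_nhds h))
          obtain ⟨i, i1, i2⟩ := b2 x U u
          obtain ⟨j, j1, j2⟩ := b2 y V v
          exact h1 (i, j, n) (.inl fun x' a y' b => e (mk_mem_prod (i2 a) (j2 b))) (hx i i1)
            (hy j j1)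
        zero_mem' := h2
        smul_mem' := fun t x hx n h => by
          obtain ⟨i, i1, i2⟩ := b2 x _ (((continuous_const_smul t).tendsto x).eventually
            ((b1 n).mem_nhds h))
          exact h1 (i, i, n) (.inr ⟨t, i2⟩) (hx i i1) (hx i i1) }, by
      refine isOpen_compl_iff.1 (isOpen_iff_mem_nhds.2 fun x hx => ?_)
      obtain ⟨n, hn⟩ := not_forall.1 hx
      exact mem_of_superset ((b1 n).mem_nhds (Classical.not_imp.1 hn).1) fun y y1 y2 =>
        (Classical.not_imp.1 hn).2 (y2 n y1)⟩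
    refine ⟨X, funext fun n => Bool.eq_iff_iff.2 ((a1 X n).trans
      ⟨fun ⟨x, x1, x2⟩ => x1 n x2, fun h => ?_⟩)⟩
    choose! m m1 m2 using h3
    obtain ⟨u, u0, u1⟩ : ∃ u : ℕ → ℕ, u 0 = n ∧ ∀ k, u (k + 1) = m (u k, k) :=
      ⟨fun k => k.rec n fun k i => m (i, k), rfl, fun _ => rfl⟩
    have u2 : ∀ k, c (u k) = true := fun k => by
      induction k with
      | zero => rwa [u0]
      | succ k ih => exact u1 k ▸ m2 (u k, k) ih
    have u3 : ∀ k, Q (u k, k) (u (k + 1)) := fun k => u1 k ▸ m1 (u k, k) (u2 k)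
    obtain ⟨x, hx⟩ := nest (fun k => B (u k)) (fun k => (u3 k).1.mono
      (subset_closure.trans (u3 k).2.1)) (fun k => (u3 k).2.1)
      tendsto_one_div_add_atTop_nhds_zero_nat fun k => (u3 k).2.2
    refine ⟨x, fun p hp => ?_, u0 ▸ hx 0⟩
    obtain ⟨ε, e0, e1⟩ := Metric.isOpen_iff.1 (b1 p) x hp
    obtain ⟨j, hj⟩ := exists_nat_one_div_lt e0
    exact h1 (u (j + 1), u (j + 1), p) (.inr ⟨1, fun y hy => by
      rw [one_smul]; exact e1 (((u3 j).2.2 y hy x (hx _)).trans_lt hj)⟩) (u2 _) (u2 _)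
  have := pol
  have := gdelta (s := range a) (a5 ▸ ((IsGδ.iInter fun p => ((k _).union ((o _ _).union
    ((o _ _).union (o _ _)))).isGδ).inter (.iInter fun n => ((k _).union (o _ _)).isGδ)).inter
    (.iInter fun p => ((o _ _).union (isOpen_iUnion fun m => (k _).inter (o _ _))).isGδ))
  refine ⟨_, ⟨a3.toHomeomorph.isClosedEmbedding.polishSpace, fun U hU =>
    isOpen_iff_mem_nhds.2 fun X ⟨x, x1, x2⟩ => ?_, range (fun n => Ep (B n)) ∪
      range fun n => (Ep (B n))ᶜ, le_antisymm (le_generateFrom ?_) (continuous_iff_le_induced.1 ?_),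
      ?_⟩, fun n => (a4 n).1, fun z s hs => ?_⟩
  · obtain ⟨n, n1, n2⟩ := b2 x U (hU.mem_nhds x2)
    exact mem_of_superset ((a4 n).2.mem_nhds ⟨x, x1, n1⟩) fun Y ⟨y, y1, y2⟩ => ⟨y, y1, n2 y2⟩
  · rintro _ (⟨n, rfl⟩ | ⟨n, rfl⟩)
    exacts [(a4 n).2, (a4 n).1.isOpen_compl]
  · letI := generateFrom (range (fun n => Ep (K := K) (B n)) ∪ range fun n => (Ep (B n))ᶜ)
    refine continuous_pi fun n => (continuous_bool_rng true).2 ?_
    rw [show (fun X => a X n) ⁻¹' {true} = Ep (B n) from Set.ext fun X => a1 X n]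
    exact ⟨⟨.basic _ (.inr ⟨n, rfl⟩)⟩, .basic _ (.inl ⟨n, rfl⟩)⟩
  · rintro _ (⟨n, rfl⟩ | ⟨n, rfl⟩)
    · exact ⟨fun _ => B n, fun _ => ∅, fun _ => ⟨b1 n, isOpen_empty⟩, by simp [Ep, iUnion_const]⟩
    · refine ⟨fun _ => univ, fun _ => B n, fun _ => ⟨isOpen_univ, b1 n⟩, ?_⟩
      rw [iUnion_const]
      exact Set.ext fun X => ⟨fun h => ⟨⟨0, zero_mem _, trivial⟩, h⟩, And.right⟩
  · obtain ⟨T, t1, t2⟩ := (mem_nhds_induced _ _ _).1 hs
    obtain ⟨W, w1, w2, w3⟩ := isTopologicalBasis_isClopen.mem_nhds_iff.1 t1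
    exact ⟨_, IsClopen.preimage w1 a3.continuous, w2, (preimage_mono w3).trans t2⟩

end

theorem result (K : Type) [RCLike K] : Good K C(ℕ → Bool, K) := by
  obtain ⟨B, hB⟩ := ((countable_countableBasis C(ℕ → Bool, K)).insert ∅).exists_eq_range
    (insert_nonempty _ _)
  have b1 : ∀ n, IsOpen (B n) := fun n => (hB.ge ⟨n, rfl⟩).elim (· ▸ isOpen_empty)
    isOpen_of_mem_countableBasis
  have b2 : ∀ x, ∀ U ∈ 𝓝 x, ∃ n, x ∈ B n ∧ B n ⊆ U := fun x U hU => by
    obtain ⟨t, t1, t2⟩ := (isBasis_countableBasis _).mem_nhds_iff.1 hU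
    obtain ⟨n, rfl⟩ := hB.le (mem_insert_of_mem _ t1)
    exact ⟨n, t2⟩
  obtain ⟨τ, a, b, c⟩ := adm (K := K) b1 b2
  have := a.1
  exact ⟨τ, a, main c b1 b2 a.2.1 b⟩

end Pool.Agent.Results.MP_89350a_an.Main
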